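import Pool.Agent.H27.HB.TA
import Pool.Agent.H89.HQ.GT

/-!
# HB board, module ACT

The action of the dilations and translations on test functions.
-/

set_option autoImplicit false

namespace Pool.Agent.H86.HB
open MeasureTheory Set Filter Topology Pool.Agent.H80.HS Pool.Agent.H93.HQ Pool.Agent.H27.HB
open Pool.Agent.H89.HQ (lin lin_apply mul_eq hasFDerivAt_mul hom)
open scoped ContDiff ENNReal

/-- the dilation as a continuous linear map -/
noncomputable def dl {n : ℕ} (r : ℝ) : H n →L[ℝ] H n :=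
  (r • ContinuousLinearMap.fst ℝ (V n) (V n × ℝ)).prod
    ((r • ((ContinuousLinearMap.fst ℝ (V n) ℝ).comp
        (ContinuousLinearMap.snd ℝ (V n) (V n × ℝ)))).prod
      ((r ^ 2) • ((ContinuousLinearMap.snd ℝ (V n) ℝ).comp
        (ContinuousLinearMap.snd ℝ (V n) (V n × ℝ)))))

theorem dl_apply {n : ℕ} (r : ℝ) (v : H n) : dl r v = dil r v := rfl

theorem dl_apply' {n : ℕ} (r : ℝ) (v : H n) : dl r v = (r • v.1, r • v.2.1, r ^ 2 * v.2.2) := rfl

theorem dil_inv_dil {n : ℕ} {r : ℝ} (hr : r ≠ 0) (z : H n) : dil r⁻¹ (dil r z) = z := by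
  refine Prod.ext ?_ (Prod.ext ?_ ?_)
  · change r⁻¹ • (r • z.1) = z.1
    rw [smul_smul, inv_mul_cancel₀ hr, one_smul]
  · change r⁻¹ • (r • z.2.1) = z.2.1
    rw [smul_smul, inv_mul_cancel₀ hr, one_smul]
  · change r⁻¹ ^ 2 * (r ^ 2 * z.2.2) = z.2.2
    rw [← mul_assoc, ← mul_pow, inv_mul_cancel₀ hr, one_pow, one_mul]

theorem dil_dil_inv {n : ℕ} {r : ℝ} (hr : r ≠ 0) (z : H n) : dil r (dil r⁻¹ z) = z := by
  have h := dil_inv_dil (n := n) (inv_ne_zero hr) z
  rwa [inv_inv] at h

/-- the dilation as a homeomorphism -/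
noncomputable def dhom {n : ℕ} (r : ℝ) (hr : r ≠ 0) : H n ≃ₜ H n where
  toFun := dil r
  invFun := dil r⁻¹
  left_inv := dil_inv_dil hr
  right_inv := dil_dil_inv hr
  continuous_toFun := (dl r).continuous
  continuous_invFun := (dl r⁻¹).continuous

/-- the map `z ↦ dil r (mul a z)` is affine -/
theorem phi_eq {n : ℕ} (a : H n) (r : ℝ) (z : H n) :
    dil r (mul a z) = dl r a + dl r (lin a z) := by
  rw [← dl_apply, mul_eq, map_add]

theorem hasFDerivAt_phi {n : ℕ} (a : H n) (r : ℝ) (z : H n) :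
    HasFDerivAt (fun z => dil r (mul a z)) ((dl r).comp (lin a)) z := by
  have h : (fun z => dil r (mul a z)) = fun z => dl r a + ((dl r).comp (lin a)) z :=
    funext fun z => phi_eq a r z
  rw [h]
  exact ((dl r).comp (lin a)).hasFDerivAt.const_add _

theorem contDiff_phi {n : ℕ} (a : H n) (r : ℝ) :
    ContDiff ℝ ∞ (fun z : H n => dil r (mul a z)) := by
  have h : (fun z => dil r (mul a z)) = fun z => dl r a + ((dl r).comp (lin a)) z :=
    funext fun z => phi_eq a r z
  rw [h]
  exact contDiff_const.add ((dl r).comp (lin a)).contDiff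

theorem pf_ACT : T_ACT := by
  intro n hn p hp hp2 a r hr φ hφ
  obtain ⟨h1, h2⟩ := hφ
  have hc : HasCompactSupport (fun z => φ (dil r (mul a z))) :=
    (h2.comp_homeomorph (dhom r hr.ne')).comp_homeomorph (hom a)
  have hs : ContDiff ℝ ∞ (fun z => φ (dil r (mul a z))) := h1.comp (contDiff_phi a r)
  refine ⟨⟨contDiff_const.mul hs, hc.mul_left⟩, ?_⟩
  funext z
  have hd : HasFDerivAt φ (fderiv ℝ φ (dil r (mul a z))) (dil r (mul a z)) :=
    (h1.differentiable (by simp) _).hasFDerivAt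
  have hd2 : HasFDerivAt (act p a r φ) ((r ^ ((2 * n + 2 - p) / p)) •
      (fderiv ℝ φ (dil r (mul a z))).comp ((dl r).comp (lin a))) z :=
    (hd.comp z (hasFDerivAt_phi a r z)).const_mul _
  have key : ∀ v w : H n, dl r (lin a v) = r • w →
      fderiv ℝ (act p a r φ) z v =
        (r ^ ((2 * n + 2 - p) / p) * r) * fderiv ℝ φ (dil r (mul a z)) w := by
    intro v w hvw
    rw [hd2.fderiv]
    change r ^ ((2 * n + 2 - p) / p) * fderiv ℝ φ (dil r (mul a z)) (dl r (lin a v)) = _
    rw [hvw, map_smul, smul_eq_mul]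
    ring
  ext i
  rcases i with j | j
  · change X (act p a r φ) j z = (r ^ ((2 * n + 2 - p) / p) * r) * X φ j (dil r (mul a z))
    unfold X
    apply key
    rw [lin_apply, dl_apply']
    refine Prod.ext rfl (Prod.ext ?_ ?_)
    · change r • (0 : V n) = r • 0
      rfl
    · change r ^ 2 * (2 * z.2.1 j + 2 * (inner ℝ a.2.1 (EuclideanSpace.single j (1 : ℝ)) -
        inner ℝ a.1 0)) = r * (2 * (r • (a.2.1 + z.2.1)) j)
      rw [EuclideanSpace.inner_single_right, inner_zero_right]
      simp only [one_mul, RCLike.conj_to_real, sub_zero, PiLp.add_apply, PiLp.smul_apply,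
        smul_eq_mul]
      ring
  · change Y (act p a r φ) j z = (r ^ ((2 * n + 2 - p) / p) * r) * Y φ j (dil r (mul a z))
    unfold Y
    apply key
    rw [lin_apply, dl_apply']
    refine Prod.ext ?_ (Prod.ext rfl ?_)
    · change r • (0 : V n) = r • 0
      rfl
    · change r ^ 2 * (-2 * z.1 j + 2 * (inner ℝ a.2.1 0 -
        inner ℝ a.1 (EuclideanSpace.single j (1 : ℝ)))) = r * (-2 * (r • (a.1 + z.1)) j)
      rw [EuclideanSpace.inner_single_right, inner_zero_right]
      simp only [one_mul, RCLike.conj_to_real, zero_sub, PiLp.add_apply, PiLp.smul_apply,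
        smul_eq_mul]
      ring

end Pool.Agent.H86.HB
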