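import Pool.Agent.H27.HB.TA

/-!
# HB board, module HGA

The algebra of the horizontal gradient.
-/

set_option autoImplicit false

namespace Pool.Agent.H86.HB
open MeasureTheory Set Filter Topology Pool.Agent.H80.HS Pool.Agent.H93.HQ Pool.Agent.H27.HB
open scoped ContDiff ENNReal

theorem hg_ext {n : ℕ} {a b : G n} (h1 : ∀ j, a (Sum.inl j) = b (Sum.inl j))
    (h2 : ∀ j, a (Sum.inr j) = b (Sum.inr j)) : a = b := by
  ext i
  rcases i with j | j
  · exact h1 j
  · exact h2 j

theorem hg_inl {n : ℕ} (u : H n → ℝ) (z : H n) (j : Fin n) :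
    hg u z (Sum.inl j) = X u j z := rfl

theorem hg_inr {n : ℕ} (u : H n → ℝ) (z : H n) (j : Fin n) :
    hg u z (Sum.inr j) = Y u j z := rfl

theorem pf_HGA : T_HGA := by
  intro n u v z hu hv
  refine ⟨fun a b => ?_, ?_, fun F F' hF => ?_, ?_⟩
  · have h : HasFDerivAt (fun x => a * u x + b * v x)
        (a • fderiv ℝ u z + b • fderiv ℝ v z) z :=
      (hu.hasFDerivAt.const_mul a).add (hv.hasFDerivAt.const_mul b)
    apply hg_ext
    · intro j
      simp only [hg_inl, PiLp.add_apply, PiLp.smul_apply, X]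
      rw [h.fderiv]
      rfl
    · intro j
      simp only [hg_inr, PiLp.add_apply, PiLp.smul_apply, Y]
      rw [h.fderiv]
      rfl
  · have h : HasFDerivAt (fun x => u x * v x)
        (u z • fderiv ℝ v z + v z • fderiv ℝ u z) z :=
      hu.hasFDerivAt.mul hv.hasFDerivAt
    apply hg_ext
    · intro j
      simp only [hg_inl, PiLp.add_apply, PiLp.smul_apply, X]
      rw [h.fderiv]
      rfl
    · intro j
      simp only [hg_inr, PiLp.add_apply, PiLp.smul_apply, Y]
      rw [h.fderiv]
      rfl
  · have h : HasFDerivAt (fun x => F (u x)) (F' • fderiv ℝ u z) z :=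
      hF.comp_hasFDerivAt z hu.hasFDerivAt
    apply hg_ext
    · intro j
      simp only [hg_inl, PiLp.smul_apply, X]
      rw [h.fderiv]
      rfl
    · intro j
      simp only [hg_inr, PiLp.smul_apply, Y]
      rw [h.fderiv]
      rfl
  · rw [EuclideanSpace.norm_eq, Fintype.sum_sum_type]
    unfold grad
    rw [Finset.sum_add_distrib]
    rfl

end Pool.Agent.H86.HB
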