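import Pool.Agent.H27.HB.TA

/-!
# HB board, module PRD

Products with bounded smooth functions.
-/

set_option autoImplicit false

namespace Pool.Agent.H86.HB
open MeasureTheory Set Filter Topology Pool.Agent.H80.HS Pool.Agent.H93.HQ Pool.Agent.H27.HB
open scoped ContDiff ENNReal

/-- `∫ |f_k|^q → 0` iff the `L^q` norms tend to zero. -/
theorem tend_iff {n : ℕ} {E : Type*} [NormedAddCommGroup E] {q : ℝ} (hq : 0 < q)
    {f : ℕ → H n → E} (hf : ∀ k, MemLp (f k) (ENNReal.ofReal q)) :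
    Tendsto (fun k => ∫ z, ‖f k z‖ ^ q) atTop (𝓝 0) ↔
      Tendsto (fun k => eLpNorm (f k) (ENNReal.ofReal q) volume) atTop (𝓝 0) := by
  have h0 : ENNReal.ofReal q ≠ 0 := by simpa using hq
  have h1 : ∀ k, eLpNorm (f k) (ENNReal.ofReal q) volume =
      ENNReal.ofReal ((∫ z, ‖f k z‖ ^ q) ^ q⁻¹) := by
    intro k
    have h := (hf k).eLpNorm_eq_integral_rpow_norm h0 ENNReal.ofReal_ne_top
    rwa [ENNReal.toReal_ofReal hq.le] at h
  have h2 : ∀ k, 0 ≤ ∫ z, ‖f k z‖ ^ q := fun k => integral_nonneg fun z => by positivity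
  constructor
  · intro h
    have h3 : Tendsto (fun k => (∫ z, ‖f k z‖ ^ q) ^ q⁻¹) atTop (𝓝 ((0 : ℝ) ^ q⁻¹)) :=
      h.rpow_const (Or.inr (by positivity))
    rw [Real.zero_rpow (by positivity)] at h3
    have h4 := ENNReal.tendsto_ofReal h3
    rw [ENNReal.ofReal_zero] at h4
    simpa only [h1] using h4
  · intro h
    have h3 : Tendsto (fun k => (eLpNorm (f k) (ENNReal.ofReal q) volume).toReal) atTop
        (𝓝 0) := by
      have h5 := (ENNReal.tendsto_toReal ENNReal.zero_ne_top).comp h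
      rw [ENNReal.toReal_zero] at h5
      exact h5
    have h4 : Tendsto (fun k => (eLpNorm (f k) (ENNReal.ofReal q) volume).toReal ^ q) atTop
        (𝓝 ((0 : ℝ) ^ q)) := h3.rpow_const (Or.inr hq.le)
    rw [Real.zero_rpow hq.ne'] at h4
    refine h4.congr fun k => ?_
    rw [h1 k, ENNReal.toReal_ofReal (Real.rpow_nonneg (h2 k) _), ← Real.rpow_mul (h2 k),
      inv_mul_cancel₀ hq.ne', Real.rpow_one]

theorem ps_pos {n : ℕ} {p : ℝ} (hp : 1 < p) (hp2 : p < 2 * n + 2) : 0 < ps n p := by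
  unfold ps
  apply div_pos
  · positivity
  · linarith

theorem holder {n : ℕ} {p : ℝ} (hp : 1 < p) (hp2 : p < 2 * n + 2) :
    ENNReal.HolderTriple (ENNReal.ofReal (ps n p)) (ENNReal.ofReal (2 * (n : ℝ) + 2))
      (ENNReal.ofReal p) := by
  apply Real.HolderTriple.ennrealOfReal
  refine ⟨?_, ps_pos hp hp2, by positivity⟩
  unfold ps
  have h1 : (2 * (n : ℝ) + 2) ≠ 0 := by positivity
  have h2 : (2 * (n : ℝ) + 2 - p) ≠ 0 := by linarith
  have h3 : p ≠ 0 := by linarith
  field_simp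
  ring

theorem smul_le {n : ℕ} {p : ℝ} (hp : 1 < p) (hp2 : p < 2 * n + 2) (v : H n → ℝ)
    (w : H n → G n) (hv : AEStronglyMeasurable v volume) (hw : AEStronglyMeasurable w volume) :
    eLpNorm (fun z => v z • w z) (ENNReal.ofReal p) volume ≤
      eLpNorm v (ENNReal.ofReal (ps n p)) volume *
        eLpNorm w (ENNReal.ofReal (2 * (n : ℝ) + 2)) volume := by
  have hHT := holder hp hp2
  have h := eLpNorm_smul_le_mul_eLpNorm (p := ENNReal.ofReal (ps n p))
    (q := ENNReal.ofReal (2 * (n : ℝ) + 2)) (r := ENNReal.ofReal p) hw hv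
  exact h

theorem smul_mem {n : ℕ} {p : ℝ} (hp : 1 < p) (hp2 : p < 2 * n + 2) (v : H n → ℝ)
    (w : H n → G n) (hv : MemLp v (ENNReal.ofReal (ps n p)))
    (hw : MemLp w (ENNReal.ofReal (2 * (n : ℝ) + 2))) :
    MemLp (fun z => v z • w z) (ENNReal.ofReal p) := by
  refine ⟨hv.1.smul hw.1, (smul_le hp hp2 v w hv.1 hw.1).trans_lt ?_⟩
  exact ENNReal.mul_lt_top hv.2 hw.2

theorem pf_PRD (hHGA : T_HGA) (hHGC : T_HGC) (hCLT : T_CLT) (_hLPN : T_LPN) : T_PRD := by
  intro n hn p hp hp2 u g χ hcl hχ hb hI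
  obtain ⟨hu, hg', φ, hφ, hms, hen⟩ := hcl
  have hp0 : 0 < p := by linarith
  have hq0 := ps_pos hp hp2
  have hχc : Continuous χ := hχ.continuous
  have hhc : Continuous (hg χ) := (hHGC n χ).1 (hχ.of_le (by simp))
  have hQ : MemLp (hg χ) (ENNReal.ofReal (2 * (n : ℝ) + 2)) := by
    have h0 : ENNReal.ofReal (2 * (n : ℝ) + 2) ≠ 0 := by
      rw [ne_eq, ENNReal.ofReal_eq_zero, not_le]
      positivity
    rw [← integrable_norm_rpow_iff hhc.aestronglyMeasurable h0 ENNReal.ofReal_ne_top,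
      ENNReal.toReal_ofReal (by positivity)]
    exact hI
  have hbd : ∀ {E : Type} [NormedAddCommGroup E] [NormedSpace ℝ E] (v : H n → E) (z : H n),
      ‖χ z • v z‖ ≤ ‖v z‖ := by
    intro E _ _ v z
    rw [norm_smul, Real.norm_eq_abs]
    exact mul_le_of_le_one_left (norm_nonneg _) (hb z)
  have hφL : ∀ k, MemLp (φ k) (ENNReal.ofReal (ps n p)) := fun k =>
    (hCLT n hn p hp hp2 (φ k) (hφ k)).1
  have hφG : ∀ k, MemLp (hg (φ k)) (ENNReal.ofReal p) := fun k =>
    (hCLT n hn p hp hp2 (φ k) (hφ k)).2.1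
  have hdL : ∀ k, MemLp (fun z => φ k z - u z) (ENNReal.ofReal (ps n p)) := fun k =>
    (hφL k).sub hu
  have hdG : ∀ k, MemLp (fun z => hg (φ k) z - g z) (ENNReal.ofReal p) := fun k =>
    (hφG k).sub hg'
  have hmL : ∀ v : H n → ℝ, MemLp v (ENNReal.ofReal (ps n p)) →
      MemLp (fun z => χ z * v z) (ENNReal.ofReal (ps n p)) := by
    intro v hv
    refine hv.of_le (hχc.aestronglyMeasurable.mul hv.1) (Eventually.of_forall fun z => ?_)
    exact hbd v z
  have hmG : ∀ v : H n → G n, MemLp v (ENNReal.ofReal p) →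
      MemLp (fun z => χ z • v z) (ENNReal.ofReal p) := by
    intro v hv
    refine hv.of_le (hχc.aestronglyMeasurable.smul hv.1) (Eventually.of_forall fun z => ?_)
    exact hbd v z
  have hmH : ∀ v : H n → ℝ, MemLp v (ENNReal.ofReal (ps n p)) →
      MemLp (fun z => v z • hg χ z) (ENNReal.ofReal p) := by
    intro v hv
    exact smul_mem hp hp2 v _ hv hQ
  have hmE : ∀ v : H n → ℝ, AEStronglyMeasurable v volume →
      eLpNorm (fun z => v z • hg χ z) (ENNReal.ofReal p) volume ≤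
        eLpNorm v (ENNReal.ofReal (ps n p)) volume *
          eLpNorm (hg χ) (ENNReal.ofReal (2 * (n : ℝ) + 2)) volume := by
    intro v hv
    exact smul_le hp hp2 v _ hv hQ.1
  refine ⟨hmL u hu, (hmG g hg').add (hmH u hu), fun k z => χ z * φ k z, fun k => ?_, ?_, ?_⟩
  · exact ⟨hχ.mul (hφ k).1, (hφ k).2.mul_left⟩
  · have h1 := (tend_iff hq0 hdL).1 (by simpa only [Real.norm_eq_abs, ms] using hms)
    have h2 : Tendsto (fun k => eLpNorm (fun z => χ z * (φ k z - u z))
        (ENNReal.ofReal (ps n p)) volume) atTop (𝓝 0) := by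
      refine tendsto_of_tendsto_of_tendsto_of_le_of_le tendsto_const_nhds h1
        (fun k => zero_le) (fun k => ?_)
      exact eLpNorm_mono fun z => hbd (fun z => φ k z - u z) z
    have h3 := (tend_iff hq0 (fun k => hmL _ (hdL k))).2 h2
    refine h3.congr fun k => ?_
    unfold ms
    refine integral_congr_ae (Eventually.of_forall fun z => ?_)
    change ‖χ z * (φ k z - u z)‖ ^ ps n p = |χ z * φ k z - χ z * u z| ^ ps n p
    rw [Real.norm_eq_abs, mul_sub]
  · have e1 : ∀ k, (fun z => hg (fun z => χ z * φ k z) z - (χ z • g z + u z • hg χ z)) =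
        fun z => χ z • (hg (φ k) z - g z) + (φ k z - u z) • hg χ z := by
      intro k
      funext z
      have hd1 : DifferentiableAt ℝ χ z := hχ.differentiable (by simp) z
      have hd2 : DifferentiableAt ℝ (φ k) z := (hφ k).1.differentiable (by simp) z
      rw [(hHGA n χ (φ k) z hd1 hd2).2.1, smul_sub, sub_smul]
      abel
    have h1 := (tend_iff hp0 hdG).1 hen
    have h2 := (tend_iff hq0 hdL).1 (by simpa only [Real.norm_eq_abs, ms] using hms)
    have hm : ∀ k, MemLp (fun z => χ z • (hg (φ k) z - g z) + (φ k z - u z) • hg χ z)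
        (ENNReal.ofReal p) := fun k => (hmG _ (hdG k)).add (hmH _ (hdL k))
    have h3 : Tendsto (fun k => eLpNorm (fun z => χ z • (hg (φ k) z - g z) +
        (φ k z - u z) • hg χ z) (ENNReal.ofReal p) volume) atTop (𝓝 0) := by
      have h4 : Tendsto (fun k => eLpNorm (fun z => hg (φ k) z - g z) (ENNReal.ofReal p) volume +
          eLpNorm (fun z => φ k z - u z) (ENNReal.ofReal (ps n p)) volume *
            eLpNorm (hg χ) (ENNReal.ofReal (2 * (n : ℝ) + 2)) volume) atTop (𝓝 0) := by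
        have h5 := ENNReal.Tendsto.mul_const h2 (Or.inr hQ.2.ne)
        simpa using h1.add h5
      refine tendsto_of_tendsto_of_tendsto_of_le_of_le tendsto_const_nhds h4
        (fun k => zero_le) (fun k => ?_)
      have h6 : (1 : ℝ≥0∞) ≤ ENNReal.ofReal p := by
        rw [ENNReal.one_le_ofReal]
        exact hp.le
      refine (eLpNorm_add_le (hmG _ (hdG k)).1 (hmH _ (hdL k)).1 h6).trans ?_
      refine add_le_add (eLpNorm_mono fun z => hbd (fun z => hg (φ k) z - g z) z) ?_
      exact hmE _ (hdL k).1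
    have h7 := (tend_iff hp0 hm).2 h3
    refine h7.congr fun k => ?_
    unfold en
    refine integral_congr_ae (Eventually.of_forall fun z => ?_)
    exact congrArg (fun v : G n => ‖v‖ ^ p) (congrFun (e1 k) z).symm

end Pool.Agent.H86.HB
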